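import Pool.Agent.L0h37.KM.Stm

/-!
# Project KM (helper37), part TWM (helper59): the twisted mean of the product of two partial sums
-/

set_option autoImplicit false
set_option linter.all false

open Complex Filter Topology MeasureTheory Set
open Pool.Agent.Y969.GP (ff ht lam FR mB)
open Pool.Agent.N879.PZ (ee)
open Pool.Agent.L0h37.KM

noncomputable section

namespace Pool.Agent.L0h59.KM

/-! ### The off-diagonal sum -/

theorem sum_inv_sqrt (X : ℕ) : ∑ m ∈ Finset.Icc 1 X, (√(m : ℝ))⁻¹ ≤ 2 * √(X : ℝ) := by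
  induction X with
  | zero => simp
  | succ X ih =>
    rw [Finset.sum_Icc_succ_top (by omega)]
    have h0 : (0 : ℝ) ≤ X := Nat.cast_nonneg X
    have h1 : (0 : ℝ) < √((X : ℝ) + 1) := Real.sqrt_pos.2 (by linarith)
    have h2 : 0 ≤ √(X : ℝ) := Real.sqrt_nonneg _
    have h3 : √((X : ℝ) + 1) ^ 2 = X + 1 := Real.sq_sqrt (by linarith)
    have h4 : √(X : ℝ) ^ 2 = X := Real.sq_sqrt h0
    have h5 : √(X : ℝ) ≤ √((X : ℝ) + 1) := Real.sqrt_le_sqrt (by linarith)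
    push_cast
    have h6 : (√((X : ℝ) + 1))⁻¹ ≤ 2 * √((X : ℝ) + 1) - 2 * √(X : ℝ) := by
      rw [inv_le_iff_one_le_mul₀ h1]
      nlinarith [sq_nonneg (√((X : ℝ) + 1) - √(X : ℝ))]
    linarith

theorem off_lt {m n : ℕ} (hn : 1 ≤ n) (h : n < m) :
    (√(m : ℝ) * √(n : ℝ) * |Real.log m - Real.log n|)⁻¹ ≤
      (√(m : ℝ) * √(n : ℝ))⁻¹ + |(m : ℝ) - n|⁻¹ := by
  have hn0 : (0 : ℝ) < n := by exact_mod_cast hn
  have hmn : (n : ℝ) < m := by exact_mod_cast h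
  have hm0 : (0 : ℝ) < m := by linarith
  have hd : (0 : ℝ) < (m : ℝ) - n := by linarith
  have hlog : ((m : ℝ) - n) / m ≤ Real.log m - Real.log n := by
    have h1 := Real.one_sub_inv_le_log_of_pos (div_pos hm0 hn0)
    rw [Real.log_div hm0.ne' hn0.ne', inv_div] at h1
    have h2 : ((m : ℝ) - n) / m = 1 - n / m := by
      field_simp
    rw [h2]
    exact h1
  have hsm : 0 < √(m : ℝ) := Real.sqrt_pos.2 hm0
  have hsn : 0 < √(n : ℝ) := Real.sqrt_pos.2 hn0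
  have hl0 : 0 < Real.log m - Real.log n := lt_of_lt_of_le (by positivity) hlog
  rw [abs_of_pos hl0, abs_of_pos hd]
  have h3 : (√(m : ℝ) * √(n : ℝ) * (Real.log m - Real.log n))⁻¹ ≤
      (√(m : ℝ) * √(n : ℝ) * (((m : ℝ) - n) / m))⁻¹ := by
    apply inv_anti₀ (by positivity)
    exact mul_le_mul_of_nonneg_left hlog (by positivity)
  refine h3.trans ?_
  have h4 : (√(m : ℝ) * √(n : ℝ) * (((m : ℝ) - n) / m))⁻¹ =
      (√(m : ℝ) * √(n : ℝ))⁻¹ + (n / (√(m : ℝ) * √(n : ℝ))) * ((m : ℝ) - n)⁻¹ := by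
    field_simp
    ring
  rw [h4]
  have h5 : (n : ℝ) / (√(m : ℝ) * √(n : ℝ)) ≤ 1 := by
    rw [div_le_one (by positivity)]
    have h6 : √(n : ℝ) * √(n : ℝ) = n := Real.mul_self_sqrt hn0.le
    have h7 : √(n : ℝ) ≤ √(m : ℝ) := Real.sqrt_le_sqrt hmn.le
    nlinarith
  have h8 : 0 < ((m : ℝ) - n)⁻¹ := by positivity
  nlinarith

theorem off_term {m n : ℕ} (hm : 1 ≤ m) (hn : 1 ≤ n) :
    (if m = n then 0 else (√(m : ℝ) * √(n : ℝ) * |Real.log m - Real.log n|)⁻¹) ≤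
      (√(m : ℝ))⁻¹ * (√(n : ℝ))⁻¹ + if m = n then 0 else |(m : ℝ) - n|⁻¹ := by
  rcases lt_trichotomy m n with h | h | h
  · rw [if_neg h.ne, if_neg h.ne]
    have := off_lt hm h
    rw [abs_sub_comm (Real.log m), abs_sub_comm (m : ℝ), mul_comm (√(m : ℝ)), ← mul_inv]
    rw [mul_comm (√(m : ℝ)) (√(n : ℝ))]
    exact this
  · rw [if_pos h, if_pos h]
    positivity
  · rw [if_neg h.ne', if_neg h.ne', ← mul_inv]
    exact off_lt hn h

theorem harm (N : ℕ) : ∑ D ∈ Finset.Icc 1 N, (D : ℝ)⁻¹ ≤ 1 + Real.log N := by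
  have h := harmonic_le_one_add_log N
  rw [harmonic_eq_sum_Icc] at h
  push_cast at h
  simpa using h

theorem row (X m : ℕ) (hm : m ≤ X) :
    ∑ n ∈ Finset.Icc 1 X, (if m = n then 0 else |(m : ℝ) - n|⁻¹) ≤ 2 * (1 + Real.log X) := by
  have h1 : ∀ n ∈ Finset.Icc 1 X, (if m = n then 0 else |(m : ℝ) - n|⁻¹) ≤
      (if n < m then ((m - n : ℕ) : ℝ)⁻¹ else 0) + (if m < n then ((n - m : ℕ) : ℝ)⁻¹ else 0) := by
    intro n _
    rcases lt_trichotomy m n with h | h | h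
    · rw [if_neg h.ne, if_neg (by omega), if_pos h, Nat.cast_sub h.le, abs_sub_comm,
        abs_of_nonneg (by have : (m : ℝ) < n := by exact_mod_cast h
                          linarith)]
      linarith
    · rw [if_pos h, if_neg (by omega), if_neg (by omega)]
      norm_num
    · rw [if_neg h.ne', if_pos h, if_neg (by omega), Nat.cast_sub h.le,
        abs_of_nonneg (by have : (n : ℝ) < m := by exact_mod_cast h
                          linarith)]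
      linarith
  refine (Finset.sum_le_sum h1).trans ?_
  rw [Finset.sum_add_distrib]
  have h2 : ∑ n ∈ Finset.Icc 1 X, (if n < m then ((m - n : ℕ) : ℝ)⁻¹ else 0) ≤ 1 + Real.log X := by
    rw [← Finset.sum_filter]
    have h3 : ∑ n ∈ (Finset.Icc 1 X).filter (fun n => n < m), ((m - n : ℕ) : ℝ)⁻¹ =
        ∑ k ∈ ((Finset.Icc 1 X).filter (fun n => n < m)).image (fun n => m - n), (k : ℝ)⁻¹ := by
      rw [Finset.sum_image]
      intro a ha b hb hab
      rw [Finset.coe_filter, Set.mem_setOf_eq] at ha hb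
      have : m - a = m - b := hab
      omega
    rw [h3]
    refine le_trans (Finset.sum_le_sum_of_subset_of_nonneg ?_ fun _ _ _ => by positivity) (harm X)
    intro k hk
    rw [Finset.mem_image] at hk
    obtain ⟨n, hn, rfl⟩ := hk
    rw [Finset.mem_filter, Finset.mem_Icc] at hn
    rw [Finset.mem_Icc]
    omega
  have h4 : ∑ n ∈ Finset.Icc 1 X, (if m < n then ((n - m : ℕ) : ℝ)⁻¹ else 0) ≤ 1 + Real.log X := by
    rw [← Finset.sum_filter]
    have h3 : ∑ n ∈ (Finset.Icc 1 X).filter (fun n => m < n), ((n - m : ℕ) : ℝ)⁻¹ =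
        ∑ k ∈ ((Finset.Icc 1 X).filter (fun n => m < n)).image (fun n => n - m), (k : ℝ)⁻¹ := by
      rw [Finset.sum_image]
      intro a ha b hb hab
      rw [Finset.coe_filter, Set.mem_setOf_eq] at ha hb
      have : a - m = b - m := hab
      omega
    rw [h3]
    refine le_trans (Finset.sum_le_sum_of_subset_of_nonneg ?_ fun _ _ _ => by positivity) (harm X)
    intro k hk
    rw [Finset.mem_image] at hk
    obtain ⟨n, hn, rfl⟩ := hk
    rw [Finset.mem_filter, Finset.mem_Icc] at hn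
    rw [Finset.mem_Icc]
    omega
  linarith

theorem t_OFF : S_OFF := by
  refine ⟨6, by norm_num, fun X hX => ?_⟩
  have hX0 : (0 : ℝ) ≤ X := Nat.cast_nonneg X
  have hlog : 0 ≤ Real.log (X : ℝ) := Real.log_nonneg (by exact_mod_cast hX)
  calc _ ≤ ∑ m ∈ Finset.Icc 1 X, ∑ n ∈ Finset.Icc 1 X, ((√(m : ℝ))⁻¹ * (√(n : ℝ))⁻¹ +
        if m = n then 0 else |(m : ℝ) - n|⁻¹) := by
        refine Finset.sum_le_sum fun m hm => Finset.sum_le_sum fun n hn => ?_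
        exact off_term (Finset.mem_Icc.1 hm).1 (Finset.mem_Icc.1 hn).1
    _ = (∑ m ∈ Finset.Icc 1 X, (√(m : ℝ))⁻¹) * (∑ m ∈ Finset.Icc 1 X, (√(m : ℝ))⁻¹) +
        ∑ m ∈ Finset.Icc 1 X, ∑ n ∈ Finset.Icc 1 X, (if m = n then 0 else |(m : ℝ) - n|⁻¹) := by
        simp only [Finset.sum_add_distrib, Finset.sum_mul_sum]
    _ ≤ (2 * √(X : ℝ)) * (2 * √(X : ℝ)) + ∑ m ∈ Finset.Icc 1 X, 2 * (1 + Real.log X) := by
        have h1 := sum_inv_sqrt X
        have h2 : 0 ≤ ∑ m ∈ Finset.Icc 1 X, (√(m : ℝ))⁻¹ :=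
          Finset.sum_nonneg fun _ _ => by positivity
        refine add_le_add (mul_le_mul h1 h1 h2 (by positivity)) ?_
        exact Finset.sum_le_sum fun m hm => row X m (Finset.mem_Icc.1 hm).2
    _ ≤ _ := by
        rw [Finset.sum_const, Nat.card_Icc, nsmul_eq_mul, Nat.add_sub_cancel]
        have h3 : √(X : ℝ) * √(X : ℝ) = X := Real.mul_self_sqrt hX0
        nlinarith [mul_nonneg hX0 hlog]

/-! ### The twisted mean -/

/-- the coefficient -/
def cf (a : ℝ) (x : ℕ × ℕ) : ℂ :=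
  (x.1 : ℂ) ^ (-(1 / 2 + I * (a : ℂ))) * (x.2 : ℂ) ^ (-(1 / 2 + I * (a : ℂ)))

/-- the frequency -/
def mu (q x : ℕ × ℕ) : ℝ := (Real.log x.2 + Real.log q.2) - (Real.log x.1 + Real.log q.1)

theorem pw {n : ℕ} (hn : 1 ≤ n) (a v : ℝ) : (n : ℂ) ^ (-(1 / 2 + I * ((a + v : ℝ) : ℂ))) =
    (n : ℂ) ^ (-(1 / 2 + I * (a : ℂ))) * cexp (I * ((-(v * Real.log n) : ℝ) : ℂ)) := by
  have hn0 : (n : ℂ) ≠ 0 := by
    rw [Nat.cast_ne_zero]
    omega
  have h1 : -(1 / 2 + I * ((a + v : ℝ) : ℂ)) = -(1 / 2 + I * (a : ℂ)) + (-(I * (v : ℂ))) := by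
    push_cast
    ring
  rw [h1, Complex.cpow_add _ _ hn0]
  congr 1
  rw [Complex.cpow_def_of_ne_zero hn0, ← Complex.natCast_log]
  congr 1
  push_cast
  ring

theorem norm_cf (a : ℝ) {x : ℕ × ℕ} (h1 : 1 ≤ x.1) (h2 : 1 ≤ x.2) :
    ‖cf a x‖ = (√(x.1 : ℝ))⁻¹ * (√(x.2 : ℝ))⁻¹ := by
  have key : ∀ n : ℕ, 1 ≤ n → ‖(n : ℂ) ^ (-(1 / 2 + I * (a : ℂ)))‖ = (√(n : ℝ))⁻¹ := by
    intro n hn
    rw [Complex.norm_natCast_cpow_of_pos (by omega), Real.sqrt_eq_rpow, ← Real.rpow_neg (by positivity)]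
    congr 1
    simp
  unfold cf
  rw [norm_mul, key _ h1, key _ h2]

theorem expand (M : ℕ) (a t : ℝ) (q : ℕ × ℕ) : GM M a t * ee t q =
    ∑ x ∈ Finset.Icc 1 M ×ˢ Finset.Icc 1 M, cf a x * cexp (I * ((t * mu q x : ℝ) : ℂ)) := by
  unfold GM PM ee lam
  rw [Finset.sum_mul_sum, ← Finset.sum_product', Finset.sum_mul]
  refine Finset.sum_congr rfl fun x hx => ?_
  rw [Finset.mem_product, Finset.mem_Icc, Finset.mem_Icc] at hx
  rw [pw hx.1.1 a t, show a - t = a + (-t) by ring, pw hx.2.1 a (-t)]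
  unfold cf mu
  have h1 : cexp (I * ((t * ((Real.log x.2 + Real.log q.2) - (Real.log x.1 + Real.log q.1)) : ℝ) : ℂ)) =
      cexp (I * ((-(t * Real.log x.1) : ℝ) : ℂ)) * cexp (I * ((-(-t * Real.log x.2) : ℝ) : ℂ)) *
        cexp (I * ((t * (Real.log q.2 - Real.log q.1) : ℝ) : ℂ)) := by
    rw [← Complex.exp_add, ← Complex.exp_add]
    congr 1
    push_cast
    ring
  rw [h1]
  ring

theorem int_zero (T μ : ℝ) (h : μ = 0) :
    ∫ t in (0 : ℝ)..T, cexp (I * ((t * μ : ℝ) : ℂ)) = T := by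
  rw [h]
  simp

theorem int_ne (T μ : ℝ) (h : μ ≠ 0) :
    ‖∫ t in (0 : ℝ)..T, cexp (I * ((t * μ : ℝ) : ℂ))‖ ≤ 2 / |μ| := by
  have hc : I * (μ : ℂ) ≠ 0 := mul_ne_zero I_ne_zero (by exact_mod_cast h)
  have h1 : ∀ t : ℝ, cexp (I * ((t * μ : ℝ) : ℂ)) = cexp (I * (μ : ℂ) * t) := by
    intro t
    congr 1
    push_cast
    ring
  simp only [h1]
  rw [integral_exp_mul_complex hc, norm_div, norm_mul, norm_I, one_mul, Complex.norm_real,
    Real.norm_eq_abs]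
  apply div_le_div_of_nonneg_right _ (abs_nonneg _)
  have h2 : ∀ t : ℝ, ‖cexp (I * (μ : ℂ) * t)‖ = 1 := by
    intro t
    have h3 : I * (μ : ℂ) * t = ((μ * t : ℝ) : ℂ) * I := by
      push_cast
      ring
    rw [h3, Complex.norm_exp_ofReal_mul_I]
  calc _ ≤ ‖cexp (I * (μ : ℂ) * T)‖ + ‖cexp (I * (μ : ℂ) * (0 : ℝ))‖ := norm_sub_le _ _
    _ = 2 := by rw [h2, h2]; norm_num

theorem diag_sum (M : ℕ) (a : ℝ) {q : ℕ × ℕ} (h1 : 1 ≤ q.1) (h2 : 1 ≤ q.2)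
    (hq : Nat.Coprime q.1 q.2) :
    ∑ x ∈ (Finset.Icc 1 M ×ˢ Finset.Icc 1 M).filter (fun x : ℕ × ℕ => x.2 * q.2 = x.1 * q.1),
      cf a x = bz M a q := by
  have hset : (Finset.Icc 1 M ×ˢ Finset.Icc 1 M).filter
      (fun x : ℕ × ℕ => x.2 * q.2 = x.1 * q.1) =
      (Finset.Icc 1 (M / max q.1 q.2)).image (fun g => (g * q.2, g * q.1)) := by
    ext x
    obtain ⟨x1, x2⟩ := x
    simp only [Finset.mem_filter, Finset.mem_product, Finset.mem_Icc, Finset.mem_image, Prod.mk.injEq]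
    constructor
    · rintro ⟨⟨⟨g1, g2⟩, g3, g4⟩, h⟩
      obtain ⟨g, hg⟩ : q.2 ∣ x1 := by
        have h3 : q.2 ∣ x1 * q.1 := ⟨x2, by rw [← h]; ring⟩
        exact (Nat.Coprime.symm hq).dvd_of_dvd_mul_right h3
      have h5 : x2 = g * q.1 := by
        have h6 : q.2 * x2 = q.2 * (g * q.1) := by
          calc q.2 * x2 = x2 * q.2 := mul_comm _ _
            _ = x1 * q.1 := h
            _ = _ := by rw [hg]; ring
        exact Nat.eq_of_mul_eq_mul_left (by omega) h6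
      have h6 : 1 ≤ g := by
        by_contra hcon
        have : g = 0 := by omega
        rw [this, mul_zero] at hg
        omega
      refine ⟨g, ⟨h6, ?_⟩, by rw [hg]; ring, h5.symm⟩
      rw [Nat.le_div_iff_mul_le (by omega)]
      rcases le_total q.1 q.2 with h7 | h7
      · rw [max_eq_right h7, mul_comm, ← hg]
        exact g2
      · rw [max_eq_left h7, ← h5]
        exact g4
    · rintro ⟨g, ⟨g1, g2⟩, rfl, rfl⟩
      rw [Nat.le_div_iff_mul_le (by omega)] at g2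
      have h3 : g * q.1 ≤ g * max q.1 q.2 := Nat.mul_le_mul_left _ (le_max_left _ _)
      have h4 : g * q.2 ≤ g * max q.1 q.2 := Nat.mul_le_mul_left _ (le_max_right _ _)
      have h5 : 1 ≤ g * q.1 := Nat.mul_pos g1 h1
      have h6 : 1 ≤ g * q.2 := Nat.mul_pos g1 h2
      exact ⟨⟨⟨h6, h4.trans g2⟩, h5, h3.trans g2⟩, by ring⟩
  rw [hset, Finset.sum_image]
  · unfold bz
    refine Finset.sum_congr rfl fun g hg => ?_
    unfold cf
    have h3 : ((g * q.2 : ℕ) : ℂ) ^ (-(1 / 2 + I * (a : ℂ))) *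
        ((g * q.1 : ℕ) : ℂ) ^ (-(1 / 2 + I * (a : ℂ))) =
        (((g * q.2 : ℕ) : ℂ) * ((g * q.1 : ℕ) : ℂ)) ^ (-(1 / 2 + I * (a : ℂ))) :=
      (Complex.natCast_mul_natCast_cpow _ _ _).symm
    rw [h3]
    congr 1
    push_cast
    ring
  · intro x _ y _ hxy
    have : x * q.2 = y * q.2 := congrArg Prod.fst hxy
    exact Nat.eq_of_mul_eq_mul_right (by omega) this

theorem mu_ne {q x : ℕ × ℕ} (h1 : 1 ≤ q.1) (h2 : 1 ≤ q.2) (h3 : 1 ≤ x.1) (h4 : 1 ≤ x.2) :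
    mu q x = Real.log ((x.2 * q.2 : ℕ) : ℝ) - Real.log ((x.1 * q.1 : ℕ) : ℝ) ∧
      (mu q x = 0 ↔ x.2 * q.2 = x.1 * q.1) := by
  have e1 : (0 : ℝ) < q.1 := by exact_mod_cast h1
  have e2 : (0 : ℝ) < q.2 := by exact_mod_cast h2
  have e3 : (0 : ℝ) < x.1 := by exact_mod_cast h3
  have e4 : (0 : ℝ) < x.2 := by exact_mod_cast h4
  have h5 : mu q x = Real.log ((x.2 * q.2 : ℕ) : ℝ) - Real.log ((x.1 * q.1 : ℕ) : ℝ) := by
    unfold mu
    push_cast
    rw [Real.log_mul e4.ne' e2.ne', Real.log_mul e3.ne' e1.ne']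
  refine ⟨h5, ?_⟩
  rw [h5, sub_eq_zero]
  constructor
  · intro h
    have := Real.log_injOn_pos (by
      show (0 : ℝ) < ((x.2 * q.2 : ℕ) : ℝ)
      push_cast
      positivity) (by
      show (0 : ℝ) < ((x.1 * q.1 : ℕ) : ℝ)
      push_cast
      positivity) h
    exact_mod_cast this
  · intro h
    rw [h]

/-- (TWM) -/
theorem t_TWM : S_TWM := by
  classical
  obtain ⟨C, hC, hoff⟩ := t_OFF
  refine ⟨2 * C, by positivity, fun M a T q hM hT h1 h2 hq => ?_⟩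
  have e1 : (1 : ℝ) ≤ q.1 := by exact_mod_cast h1
  have e2 : (1 : ℝ) ≤ q.2 := by exact_mod_cast h2
  have hM1 : (1 : ℝ) ≤ M := by exact_mod_cast hM
  have hht : 1 ≤ ht q := by
    unfold ht
    nlinarith
  -- the integral
  have hint : ∫ t in (0 : ℝ)..T, GM M a t * ee t q = ∑ x ∈ Finset.Icc 1 M ×ˢ Finset.Icc 1 M,
      cf a x * ∫ t in (0 : ℝ)..T, cexp (I * ((t * mu q x : ℝ) : ℂ)) := by
    simp only [expand]
    rw [intervalIntegral.integral_finset_sum]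
    · refine Finset.sum_congr rfl fun x _ => ?_
      rw [intervalIntegral.integral_const_mul]
    · intro x _
      apply Continuous.intervalIntegrable
      fun_prop
  obtain ⟨B, hB⟩ : ∃ B : Finset (ℕ × ℕ), B = Finset.Icc 1 M ×ˢ Finset.Icc 1 M := ⟨_, rfl⟩
  have hmem : ∀ x ∈ B, 1 ≤ x.1 ∧ x.1 ≤ M ∧ 1 ≤ x.2 ∧ x.2 ≤ M := by
    intro x hx
    rw [hB, Finset.mem_product, Finset.mem_Icc, Finset.mem_Icc] at hx
    exact ⟨hx.1.1, hx.1.2, hx.2.1, hx.2.2⟩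
  have hsplit : (∫ t in (0 : ℝ)..T, GM M a t * ee t q) - (T : ℂ) * bz M a q =
      ∑ x ∈ B.filter (fun x : ℕ × ℕ => ¬ x.2 * q.2 = x.1 * q.1),
        cf a x * ∫ t in (0 : ℝ)..T, cexp (I * ((t * mu q x : ℝ) : ℂ)) := by
    rw [hint, ← hB, ← Finset.sum_filter_add_sum_filter_not B
      (fun x : ℕ × ℕ => x.2 * q.2 = x.1 * q.1), ← diag_sum M a h1 h2 hq, ← hB, Finset.mul_sum]
    have h3 : ∑ x ∈ B.filter (fun x : ℕ × ℕ => x.2 * q.2 = x.1 * q.1),
        cf a x * ∫ t in (0 : ℝ)..T, cexp (I * ((t * mu q x : ℝ) : ℂ)) =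
        ∑ x ∈ B.filter (fun x : ℕ × ℕ => x.2 * q.2 = x.1 * q.1), (T : ℂ) * cf a x := by
      refine Finset.sum_congr rfl fun x hx => ?_
      rw [Finset.mem_filter] at hx
      obtain ⟨g1, g2, g3, g4⟩ := hmem x hx.1
      rw [int_zero T _ ((mu_ne h1 h2 g1 g3).2.2 hx.2), mul_comm]
    rw [h3]
    ring
  rw [hsplit]
  obtain ⟨F, hF⟩ : ∃ F : ℕ × ℕ → ℝ, F = fun y => if y.1 = y.2 then 0 else
    (√(y.1 : ℝ) * √(y.2 : ℝ) * |Real.log y.1 - Real.log y.2|)⁻¹ := ⟨_, rfl⟩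
  have hF0 : ∀ y, 0 ≤ F y := by
    intro y
    rw [hF]
    dsimp only
    split_ifs
    · exact le_rfl
    · positivity
  obtain ⟨X, hX⟩ : ∃ X : ℕ, X = M * (q.1 * q.2) := ⟨_, rfl⟩
  have hX1 : 1 ≤ X := by
    rw [hX]
    exact Nat.mul_pos hM (Nat.mul_pos h1 h2)
  have hterm : ∀ x ∈ B.filter (fun x : ℕ × ℕ => ¬ x.2 * q.2 = x.1 * q.1),
      ‖cf a x * ∫ t in (0 : ℝ)..T, cexp (I * ((t * mu q x : ℝ) : ℂ))‖ ≤
        2 * √(ht q) * F (x.1 * q.1, x.2 * q.2) := by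
    intro x hx
    rw [Finset.mem_filter] at hx
    obtain ⟨g1, g2, g3, g4⟩ := hmem x hx.1
    obtain ⟨m1, m2⟩ := mu_ne h1 h2 g1 g3
    have hne : mu q x ≠ 0 := fun h => hx.2 (m2.1 h)
    rw [norm_mul, norm_cf a g1 g3]
    have h5 : F (x.1 * q.1, x.2 * q.2) =
        (√((x.1 * q.1 : ℕ) : ℝ) * √((x.2 * q.2 : ℕ) : ℝ) * |mu q x|)⁻¹ := by
      rw [hF]
      dsimp only
      rw [if_neg (fun h => hx.2 h.symm), m1, abs_sub_comm (Real.log ((x.1 * q.1 : ℕ) : ℝ))]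
    have p1 : (0 : ℝ) < x.1 := by exact_mod_cast g1
    have p2 : (0 : ℝ) < x.2 := by exact_mod_cast g3
    have p3 : (0 : ℝ) < q.1 := by linarith
    have p4 : (0 : ℝ) < q.2 := by linarith
    have h6 : 2 * √(ht q) * F (x.1 * q.1, x.2 * q.2) =
        (√(x.1 : ℝ))⁻¹ * (√(x.2 : ℝ))⁻¹ * (2 / |mu q x|) := by
      rw [h5]
      unfold ht
      push_cast
      rw [Real.sqrt_mul p3.le, Real.sqrt_mul p1.le, Real.sqrt_mul p2.le]
      have r1 : √(q.1 : ℝ) ≠ 0 := (Real.sqrt_pos.2 p3).ne'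
      have r2 : √(q.2 : ℝ) ≠ 0 := (Real.sqrt_pos.2 p4).ne'
      have r3 : √(x.1 : ℝ) ≠ 0 := (Real.sqrt_pos.2 p1).ne'
      have r4 : √(x.2 : ℝ) ≠ 0 := (Real.sqrt_pos.2 p2).ne'
      have r5 : |mu q x| ≠ 0 := (abs_pos.2 hne).ne'
      field_simp
    rw [h6]
    exact mul_le_mul_of_nonneg_left (int_ne T _ hne) (by positivity)
  have hinj : Set.InjOn (fun x : ℕ × ℕ => (x.1 * q.1, x.2 * q.2))
      (B.filter (fun x : ℕ × ℕ => ¬ x.2 * q.2 = x.1 * q.1) : Finset (ℕ × ℕ)) := by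
    intro x _ y _ hxy
    have u1 : x.1 * q.1 = y.1 * q.1 := congrArg Prod.fst hxy
    have u2 : x.2 * q.2 = y.2 * q.2 := congrArg Prod.snd hxy
    exact Prod.ext (Nat.eq_of_mul_eq_mul_right (by omega) u1)
      (Nat.eq_of_mul_eq_mul_right (by omega) u2)
  have hht0 : ht q = ((q.1 * q.2 : ℕ) : ℝ) := by
    unfold ht
    push_cast
    ring
  have hXr : (X : ℝ) = M * ht q := by
    rw [hX, hht0]
    push_cast
    ring
  calc _ ≤ ∑ x ∈ B.filter (fun x : ℕ × ℕ => ¬ x.2 * q.2 = x.1 * q.1),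
        2 * √(ht q) * F (x.1 * q.1, x.2 * q.2) :=
        (norm_sum_le _ _).trans (Finset.sum_le_sum hterm)
    _ = 2 * √(ht q) * ∑ y ∈ (B.filter (fun x : ℕ × ℕ => ¬ x.2 * q.2 = x.1 * q.1)).image
        (fun x : ℕ × ℕ => (x.1 * q.1, x.2 * q.2)), F y := by
        rw [← Finset.mul_sum, Finset.sum_image hinj]
    _ ≤ 2 * √(ht q) * ∑ y ∈ Finset.Icc 1 X ×ˢ Finset.Icc 1 X, F y := by
        apply mul_le_mul_of_nonneg_left _ (by positivity)
        refine Finset.sum_le_sum_of_subset_of_nonneg ?_ fun y _ _ => hF0 y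
        intro y hy
        rw [Finset.mem_image] at hy
        obtain ⟨x, hx, rfl⟩ := hy
        obtain ⟨g1, g2, g3, g4⟩ := hmem x (Finset.mem_filter.1 hx).1
        rw [Finset.mem_product, Finset.mem_Icc, Finset.mem_Icc, hX]
        refine ⟨⟨Nat.mul_pos g1 h1, ?_⟩, Nat.mul_pos g3 h2, ?_⟩
        · exact Nat.mul_le_mul g2 (Nat.le_mul_of_pos_right _ h2)
        · exact Nat.mul_le_mul g4 (Nat.le_mul_of_pos_left _ h1)
    _ ≤ 2 * ht q * (C * (X * (1 + Real.log X))) := by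
        have h7 := hoff X hX1
        have h8 : ∑ y ∈ Finset.Icc 1 X ×ˢ Finset.Icc 1 X, F y =
            ∑ m ∈ Finset.Icc 1 X, ∑ n ∈ Finset.Icc 1 X,
              (if m = n then 0 else (√m * √n * |Real.log m - Real.log n|)⁻¹) := by
          rw [Finset.sum_product, hF]
        rw [h8]
        have h9 : √(ht q) ≤ ht q := by
          rw [Real.sqrt_le_left (by linarith)]
          nlinarith
        have h10 : 0 ≤ C * (X * (1 + Real.log X)) := by
          have : 0 ≤ Real.log (X : ℝ) := Real.log_nonneg (by exact_mod_cast hX1)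
          positivity
        calc _ ≤ 2 * √(ht q) * (C * (X * (1 + Real.log X))) :=
              mul_le_mul_of_nonneg_left h7 (by positivity)
          _ ≤ _ := mul_le_mul_of_nonneg_right (by linarith) h10
    _ = 2 * C * (M * ht q ^ 2 * (1 + Real.log (M * ht q))) := by
        rw [hXr]
        ring

end Pool.Agent.L0h59.KM

end
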